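import Mathlib
import Pool.Agent.helper11.FT.Len3
import Pool.Agent.helper32.FT.Fin

/-! # MP_9c6401_al: position of Sylow subgroups in the Fitting series under coprime action

For a finite solvable group `G`, a finite group `A` of coprime order acting on `G` and an
`A`-invariant Sylow `p`-subgroup `P` of `G` such that `p` does not divide `|C_G(A)|` and `C_G(A)`
normalises `P`, we show `P ≤ F_{f(l(A))}(G)` for an explicit `f(k) = (k-1)(log* k + O(1)) + 1`, and
`P ≤ F_{l(A)}(G)` if all Sylow subgroups of `G` are abelian.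
-/

namespace Pool.Agent.Results.MP_9c6401_al.FittingPosition

open FT

universe u v

/-- `l(A)`: the number of primes, counted with multiplicity, whose product is `|A|` -/
noncomputable def l (A : Type v) : ℕ := (Nat.card A).primeFactorsList.length

/-- Admissible triples `(G, A, P)` (with the prime `p`). -/
structure Admissible (G : Type u) [Group G] (A : Type v) [Group A] [MulDistribMulAction A G]
    (p : ℕ) (P : Sylow p G) : Prop where
  /-- `G` is solvable -/
  solvable : Group.IsSolvable G
  /-- the orders of `A` and `G` are coprime -/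
  coprime : Nat.Coprime (Nat.card A) (Nat.card G)
  /-- `p` is a prime -/
  prime : p.Prime
  /-- `P` is `A`-invariant -/
  invariant : ∀ (a : A) (x : G), x ∈ P → a • x ∈ P
  /-- `p` does not divide the order of `C_G(A)` -/
  not_dvd : ¬ p ∣ Nat.card (FixedPoints.subgroup A G)
  /-- `C_G(A)` normalises `P` -/
  normalises : FixedPoints.subgroup A G ≤ Subgroup.normalizer ((P : Subgroup G) : Set G)

/-- the least `t` with `k ≤ tow t`, where `tow 0 = 2 ^ (2 ^ 17)`, `tow (t + 1) = 2 ^ tow t`
(`FT.tow`); an iterated logarithm, `0` for `k ≤ 2 ^ 131072` -/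
noncomputable def ls (k : ℕ) : ℕ := sInf {t : ℕ | k ≤ tow t}

/-- the bound `f(k) = (k - 1)(ls(k) + 7) + 1` -/
noncomputable def f (k : ℕ) : ℕ := (k - 1) * (ls k + 7) + 1

theorem le_tow_self (k : ℕ) : k ≤ tow k := by
  induction k with
  | zero => exact Nat.zero_le _
  | succ k ih =>
    have h1 : tow (k + 1) = 2 ^ tow k := rfl
    rw [h1]
    exact (Nat.succ_le_succ ih).trans Nat.lt_two_pow_self

theorem le_tow_ls (k : ℕ) : k ≤ tow (ls k) :=
  Nat.sInf_mem (s := {t : ℕ | k ≤ tow t}) ⟨k, le_tow_self k⟩

/-- if `l(A) = 0` then `P = 1` -/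
theorem eq_bot_of_l_zero {G : Type u} [Group G] [Finite G] {A : Type v} [Group A] [Finite A]
    [MulDistribMulAction A G] {p : ℕ} {P : Sylow p G} (h : Admissible G A p P) (hl : l A = 0) :
    (P : Subgroup G) = ⊥ := by
  have hp := h.prime
  have : Fact p.Prime := ⟨hp⟩
  have h1 : Nat.card A = 1 := by
    rcases (Nat.primeFactorsList_eq_nil _).1 (List.length_eq_zero_iff.1 hl) with h2 | h2
    · exact absurd h2 Nat.card_pos.ne'
    · exact h2
  have h2 : Subsingleton A := (Nat.card_eq_one_iff_unique.1 h1).1
  have h3 : FixedPoints.subgroup A G = ⊤ := by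
    rw [eq_top_iff]
    intro g _ a
    rw [Subsingleton.elim a 1, one_smul]
  have h4 : ¬ p ∣ Nat.card G := by
    have h5 := h.not_dvd
    rw [h3, Subgroup.card_top] at h5
    exact h5
  have h5 : Nat.card (P : Subgroup G) = 1 := by
    have h6 := P.card_eq_multiplicity
    rw [Nat.factorization_eq_zero_of_not_dvd h4, pow_zero] at h6
    exact h6
  exact Subgroup.eq_bot_of_card_eq _ h5

/-- a `p`-subgroup of the image of `G` in the semidirect product is abelian if the Sylow
`p`-subgroups of `G` are -/
theorem comm_of_sylow {G : Type u} [Group G] [Finite G] {A : Type v} [Group A]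
    [MulDistribMulAction A G] (q : ℕ) (hq : q.Prime)
    (hab : ∀ (Q : Sylow q G) (x y : G), x ∈ Q → y ∈ Q → x * y = y * x)
    (R : Subgroup (SD G A)) (hR : IsPGroup q R) (hRG : R ≤ (iG G A).range) :
    ∀ x ∈ R, ∀ y ∈ R, x * y = y * x := by
  have : Fact q.Prime := ⟨hq⟩
  have h1 : IsPGroup q (R.comap (iG G A)) := hR.comap_of_injective _ iG_inj
  obtain ⟨Q, hQ⟩ := h1.exists_le_sylow
  intro x hx y hy
  obtain ⟨a, rfl⟩ := hRG hx
  obtain ⟨b, rfl⟩ := hRG hy
  rw [← map_mul, ← map_mul, hab Q a b (hQ hx) (hQ hy)]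

/-- Main theorem. -/
theorem result (G : Type u) [Group G] [Finite G] (A : Type v) [Group A] [Finite A]
    [MulDistribMulAction A G] (p : ℕ) (P : Sylow p G) (h : Admissible G A p P) :
    (P : Subgroup G) ≤ fitSer G (f (l A)) ∧
    ((∀ (q : ℕ) (Q : Sylow q G), q.Prime → ∀ x ∈ Q, ∀ y ∈ Q, x * y = y * x) →
      (P : Subgroup G) ≤ fitSer G (l A)) := by
  have hp := h.prime
  have : Fact p.Prime := ⟨hp⟩
  have hfin : Finite (SD G A) := Finite.of_equiv _ SemidirectProduct.equivProd.symm
  constructor
  · by_contra hn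
    obtain ⟨T, h1, h2, h3⟩ := exists_tower h.solvable h.coprime p P h.invariant h.not_dvd
      h.normalises _ hn
    have h5 := T.length_bound3 (l A) (ls (l A)) (by
      rw [h2]
      rfl) (le_tow_ls (l A))
    exact absurd (h1.trans h5) (not_le.2 (Nat.lt_succ_self _))
  · intro hab
    by_contra hn
    obtain ⟨T, h1, h2, h3⟩ := exists_tower h.solvable h.coprime p P h.invariant h.not_dvd
      h.normalises _ hn
    rcases Nat.eq_zero_or_pos (l A) with h4 | h4
    · rw [eq_bot_of_l_zero h h4] at hn
      exact hn bot_le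
    · have h5 := T.all_ab' (h4.trans_le h1) (by
        intro i hi
        have h6 := comm_of_sylow (T.p i) (T.hp i hi.le)
          (fun Q x y hx hy => hab (T.p i) Q (T.hp i hi.le) x hx y hy) (T.P i) (T.hP i hi.le)
          (h3 i hi.le)
        have h7 : ⁅T.P i, T.P i⁆ ≤ (⊥ : Subgroup (SD G A)) := by
          rw [Subgroup.commutator_le]
          intro x hx y hy
          rw [Subgroup.mem_bot, commutatorElement_eq_one_iff_mul_comm]
          exact h6 x hx y hy
        exact h7.trans bot_le)
      rw [h2] at h5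
      exact absurd (h1.trans_lt (Nat.lt_succ_self _)) (not_lt.2 h5)

end Pool.Agent.Results.MP_9c6401_al.FittingPosition
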